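import Pool.Agent.Work.MP_8493f1_gt.H31Main

set_option autoImplicit false

namespace Pool.Agent.Results.MP_8493f1_gt.Full

open Pool.Agent.Work.MP_8493f1_gt

/-- A continuum with surjective span zero has semispan zero, hence span zero. -/
theorem result :
    ∀ (X : Type) [MetricSpace X] [CompactSpace X] [ConnectedSpace X],
      (∀ C : Set (X × X), IsConnected C →
          Prod.fst '' C = Set.univ → Prod.snd '' C = Set.univ →
          ∀ ε : ℝ, 0 < ε → ∃ p ∈ C, dist p.1 p.2 < ε) →
        ∀ C : Set (X × X), IsConnected C → Prod.snd '' C ⊆ Prod.fst '' C →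
          ∀ ε : ℝ, 0 < ε → ∃ p ∈ C, dist p.1 p.2 < ε := by
  intro X _ _ _ h C hC e ε hε
  exact semi_of_surj (noFlip_of h).hw hε (fun D d1 d2 d3 => h D d1 d2 d3 _ (by positivity)) hC e

end Pool.Agent.Results.MP_8493f1_gt.Full
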