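import Pool.Agent.Work.MP_8493f1_gt.H82Main
import Mathlib.Analysis.InnerProductSpace.PiL2

set_option autoImplicit false

namespace Pool.Agent.Results.MP_8493f1_gt.Plane

open Pool.Agent.Work.MP_8493f1_gt

/-- A continuum that embeds in the plane and has surjective span zero or symmetric span zero has
semispan zero. -/
theorem result :
    ∀ (X : Type) [MetricSpace X] [CompactSpace X] [ConnectedSpace X]
      (e : X → EuclideanSpace ℝ (Fin 2)), Continuous e → Function.Injective e →
      ((∀ C : Set (X × X), IsConnected C →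
            Prod.fst '' C = Set.univ → Prod.snd '' C = Set.univ →
            ∀ ε : ℝ, 0 < ε → ∃ p ∈ C, dist p.1 p.2 < ε) ∨
          (∀ C : Set (X × X), IsConnected C → (∀ p ∈ C, p.swap ∈ C) →
            ∀ ε : ℝ, 0 < ε → ∃ p ∈ C, dist p.1 p.2 < ε)) →
        ∀ C : Set (X × X), IsConnected C → Prod.snd '' C ⊆ Prod.fst '' C →
          ∀ ε : ℝ, 0 < ε → ∃ p ∈ C, dist p.1 p.2 < ε := by
  intro X _ _ _ e he inj h C hC hn ε hε
  refine plane_semi (h.elim noFlip_of noFlip_of_symm)
    (e := fun x => (e x 0 : ℂ) + (e x 1 : ℂ) * Complex.I) (by fun_prop) (fun x y c => inj ?_)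
    hC hn hε
  have c1 := congrArg Complex.re c
  have c2 := congrArg Complex.im c
  ext i
  fin_cases i
  · simpa using c1
  · simpa using c2

end Pool.Agent.Results.MP_8493f1_gt.Plane
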