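import Pool.Agent.Work.MP_8493f1_gt.H97Main

set_option autoImplicit false

namespace Pool.Agent.Results.MP_8493f1_gt.SemiSurj

open Pool.Agent.Work.MP_8493f1_gt

/-- If the surjective span or the symmetric span of a continuum is zero, its semispan is at most
twice its surjective semispan. -/
theorem result :
    ∀ (X : Type) [MetricSpace X] [CompactSpace X] [ConnectedSpace X],
      ((∀ C : Set (X × X), IsConnected C →
            Prod.fst '' C = Set.univ → Prod.snd '' C = Set.univ →
            ∀ ε : ℝ, 0 < ε → ∃ p ∈ C, dist p.1 p.2 < ε) ∨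
          (∀ C : Set (X × X), IsConnected C → (∀ p ∈ C, p.swap ∈ C) →
            ∀ ε : ℝ, 0 < ε → ∃ p ∈ C, dist p.1 p.2 < ε)) →
        ∀ (a : ℝ) (C : Set (X × X)), IsConnected C → Prod.snd '' C ⊆ Prod.fst '' C →
          (∀ p ∈ C, a ≤ dist p.1 p.2) →
          ∃ D : Set (X × X), IsConnected D ∧ Prod.fst '' D = Set.univ ∧
            ∀ p ∈ D, a / 2 ≤ dist p.1 p.2 := by
  intro X _ _ _ h a C hC hn ha
  exact semi_half (h.elim noFlip_of noFlip_of_symm).hw hC hn ha

end Pool.Agent.Results.MP_8493f1_gt.SemiSurj
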