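import Pool.Agent.Work.MP_8493f1_gt.H97Main

set_option autoImplicit false

namespace Pool.Agent.Results.MP_8493f1_gt.WeakChain

open Pool.Agent.Work.MP_8493f1_gt

/-- For a weakly chainable continuum: surjective span zero, symmetric span zero, hereditary weak
confluence, span zero and semispan zero are equivalent. -/
theorem result :
    ∀ (X : Type) [MetricSpace X] [CompactSpace X] [ConnectedSpace X]
      (P : Type) [MetricSpace P] [CompactSpace P] [ConnectedSpace P],
      (∀ η : ℝ, 0 < η → ∃ l : P → ℝ, Continuous l ∧ ∀ p q, l p = l q → dist p q < η) →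
      ∀ f : P → X, Continuous f → Function.Surjective f →
        List.TFAE
          [∀ C : Set (X × X), IsConnected C →
              Prod.fst '' C = Set.univ → Prod.snd '' C = Set.univ →
              ∀ ε : ℝ, 0 < ε → ∃ p ∈ C, dist p.1 p.2 < ε,
            ∀ C : Set (X × X), IsConnected C → (∀ p ∈ C, p.swap ∈ C) →
              ∀ ε : ℝ, 0 < ε → ∃ p ∈ C, dist p.1 p.2 < ε,
            ∀ (Z : Type) [MetricSpace Z] [CompactSpace Z] [ConnectedSpace Z] (g : Z → X),
              Continuous g → ∀ K : Set X, IsCompact K → IsConnected K → K ⊆ Set.range g →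
              ∃ D : Set Z, IsCompact D ∧ IsConnected D ∧ g '' D = K,
            ∀ C : Set (X × X), IsConnected C → Prod.fst '' C = Prod.snd '' C →
              ∀ ε : ℝ, 0 < ε → ∃ p ∈ C, dist p.1 p.2 < ε,
            ∀ C : Set (X × X), IsConnected C → Prod.snd '' C ⊆ Prod.fst '' C →
              ∀ ε : ℝ, 0 < ε → ∃ p ∈ C, dist p.1 p.2 < ε] := by
  intro X _ _ _ P _ _ _ hP f hf hs
  have key : NoFlip X → ∀ (Z : Type) [MetricSpace Z] [CompactSpace Z] [ConnectedSpace Z]
      (g : Z → X), Continuous g → ∀ K : Set X, IsCompact K → IsConnected K → K ⊆ Set.range g →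
      ∃ D : Set Z, IsCompact D ∧ IsConnected D ∧ g '' D = K := by
    intro h Z _ _ _ g hg K hK hK' hs
    obtain ⟨D, -, hD⟩ := weak_confluent h isCompact_univ isPreconnected_univ hg hK hK'
      (by rwa [Set.image_univ])
    exact ⟨D, hD⟩
  tfae_have 1 → 3 := fun h => key (noFlip_of h)
  tfae_have 2 → 3 := fun h => key (noFlip_of_symm h)
  tfae_have 3 → 5 := by
    intro h C hC hn ε hε
    refine weak_chain (fun A hA hA' K hK hK' hs => ?_) hP hf hs hC hn hε
    have : CompactSpace A := isCompact_iff_compactSpace.1 hA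
    have : ConnectedSpace A := isConnected_iff_connectedSpace.1 hA'
    obtain ⟨D, d1, d2, d3⟩ := h A (fun a => a.1.1) (by fun_prop) K hK hK' fun x hx => by
      obtain ⟨a, ha, rfl⟩ := hs hx
      exact ⟨⟨a, ha⟩, rfl⟩
    exact ⟨Subtype.val '' D, Subtype.coe_image_subset _ _, d1.image continuous_subtype_val,
      d2.image _ continuous_subtype_val.continuousOn, by rw [Set.image_image, d3]⟩
  tfae_have 5 → 4 := fun h C hC e => h C hC e.ge
  tfae_have 4 → 1 := fun h C hC e e' => h C hC (e.trans e'.symm)
  tfae_have 5 → 2 := fun h C hC e => h C hC (by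
    rintro _ ⟨p, hp, rfl⟩
    exact ⟨p.swap, e p hp, rfl⟩)
  tfae_finish

end Pool.Agent.Results.MP_8493f1_gt.WeakChain
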